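import Pool.Agent.N469.SQ.One
import Pool.Agent.N469.SQ.Smooth

set_option autoImplicit false

/-! The exponential sum over the integers composed of primes from `P`, with a power saving. -/

namespace Pool.Agent.N469.PW
open Finset
open Pool.Agent.H807R2.Dav
open Pool.Agent.H373R2.T7
open Pool.Agent.N469.SM (SS mem_SS one_mem_SS SS_mono card_SS_le card_SS_pos)
open Pool.Agent.N469.SQ (Hyp exp_alt maj mem_maj maj_card)

/-- the conditions on the set of primes and on the length, with a power of `N` as the bound for the primes -/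
structure CondP (δ θ : ℝ) (N : ℕ) (P : Finset ℕ) (y x : ℕ) : Prop where
  primes : ∀ p ∈ P, p.Prime ∧ p ≤ y
  one : 1 ≤ y
  top : (y : ℝ) ≤ (N : ℝ) ^ θ
  card : (y : ℝ) ^ (1 / 2 + δ) * Real.log N ≤ P.card
  xN : x ≤ N
  Nx : (N : ℝ) ^ (1 - θ) ≤ x

lemma CondP.mono {δ θ θ' : ℝ} {N : ℕ} {P : Finset ℕ} {y x : ℕ} (hN : 1 ≤ N) (hθ : θ ≤ θ') (h : CondP δ θ N P y x) : CondP δ θ' N P y x := by
  have hN1 : (1 : ℝ) ≤ N := by exact_mod_cast hN
  exact ⟨h.primes, h.one, h.top.trans (Real.rpow_le_rpow_of_exponent_le hN1 hθ), h.card, h.xN,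
    (Real.rpow_le_rpow_of_exponent_le hN1 (by linarith)).trans h.Nx⟩

/-- the standing hypotheses hold -/
lemma hyp_of (δ : ℝ) (hδ : 0 < δ) : ∃ m : ℕ, 1 ≤ m ∧ ∃ N₀ : ℕ, ∀ N, N₀ ≤ N → ∀ (θ : ℝ), θ ≤ 1 / 2 → ∀ (P : Finset ℕ) (y x : ℕ),
    CondP δ θ N P y x → ∃ ρ w : ℝ, Hyp P y ρ w m x ∧ Real.log N ≤ y := by
  obtain ⟨m, hm⟩ := exists_nat_ge (2 / δ)
  have hm1 : 1 ≤ m := by
    by_contra hcon
    have h0 : m = 0 := by omega
    rw [h0] at hm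
    have : 0 < 2 / δ := by positivity
    push_cast at hm
    linarith
  refine ⟨m, hm1, ?_⟩
  obtain ⟨Y, hY⟩ : ∃ Y : ℕ, (4 : ℝ) ^ (1 / δ) ≤ (Y : ℝ) := exists_nat_ge _
  obtain ⟨n2, h2⟩ := ev_L' ((Y : ℝ) + 4)
  refine ⟨n2 + 16, fun N hN θ hθ P y x h => ?_⟩
  obtain ⟨hP, hy1, -, hcard, hxN, hNx⟩ := h
  have hL := h2 N (by omega)
  have hYn : (0 : ℝ) ≤ Y := Nat.cast_nonneg _
  obtain ⟨L, hLd⟩ : ∃ L, L = Real.log (N : ℝ) := ⟨_, rfl⟩
  rw [← hLd] at hL hcard ⊢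
  have hL4 : 4 ≤ L := by linarith
  have hL0 : 0 < L := by linarith
  have hN16 : (16 : ℝ) ≤ N := by exact_mod_cast (by omega : 16 ≤ N)
  have hx4 : 4 ≤ x := by
    have e1 : (N : ℝ) ^ ((1 : ℝ) / 2) ≤ (N : ℝ) ^ (1 - θ) := Real.rpow_le_rpow_of_exponent_le (by linarith) (by linarith)
    have e2 : (4 : ℝ) ≤ (N : ℝ) ^ ((1 : ℝ) / 2) := by
      rw [← Real.sqrt_eq_rpow]
      apply Real.le_sqrt_of_sq_le
      calc (4 : ℝ) ^ 2 = 16 := by norm_num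
        _ ≤ N := hN16
    exact_mod_cast e2.trans (e1.trans hNx)
  have hPy : P.card ≤ y := by
    have : P ⊆ Icc 1 y := fun p hp => mem_Icc.2 ⟨(hP p hp).1.pos, (hP p hp).2⟩
    have := card_le_card this
    rwa [Nat.card_Icc, Nat.add_sub_cancel] at this
  have hPyr : (P.card : ℝ) ≤ y := by exact_mod_cast hPy
  have hy1r : (1 : ℝ) ≤ y := by exact_mod_cast hy1
  have hy0 : (0 : ℝ) < y := by linarith
  -- `y` is at least `L ^ 2`
  have hyL : L ^ 2 ≤ y := by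
    have e1 : (y : ℝ) ^ ((1 : ℝ) / 2) ≤ (y : ℝ) ^ (1 / 2 + δ) := Real.rpow_le_rpow_of_exponent_le hy1r (by linarith)
    have e2 : (y : ℝ) ^ ((1 : ℝ) / 2) * L ≤ y := by
      calc (y : ℝ) ^ ((1 : ℝ) / 2) * L ≤ (y : ℝ) ^ (1 / 2 + δ) * L := mul_le_mul_of_nonneg_right e1 hL0.le
        _ ≤ y := hcard.trans hPyr
    rw [← Real.sqrt_eq_rpow] at e2
    have e3 : 0 < √(y : ℝ) := Real.sqrt_pos.2 hy0
    have e4 : √(y : ℝ) * L ≤ √(y : ℝ) * √(y : ℝ) := by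
      rw [Real.mul_self_sqrt hy0.le]
      exact e2
    have e5 := le_of_mul_le_mul_left e4 e3
    calc L ^ 2 ≤ √(y : ℝ) ^ 2 := pow_le_pow_left₀ hL0.le e5 2
      _ = y := Real.sq_sqrt hy0.le
  have hyY : (Y : ℝ) ≤ y := by nlinarith
  have hyδ2 : 2 ≤ (y : ℝ) ^ (δ / 2) := by
    have e1 : (4 : ℝ) ^ (1 / δ) ≤ y := hY.trans hyY
    have e2 : ((4 : ℝ) ^ (1 / δ)) ^ (δ / 2) ≤ (y : ℝ) ^ (δ / 2) := Real.rpow_le_rpow (by positivity) e1 (by positivity)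
    rw [← Real.rpow_mul (by norm_num)] at e2
    have e3 : 1 / δ * (δ / 2) = 1 / 2 := by field_simp
    rw [e3, ← Real.sqrt_eq_rpow] at e2
    have e4 : √(4 : ℝ) = 2 := by
      rw [show (4 : ℝ) = 2 ^ 2 by norm_num]
      exact Real.sqrt_sq (by norm_num)
    rw [e4] at e2
    exact e2
  obtain ⟨w, hw⟩ : ∃ w : ℝ, w = (y : ℝ) ^ (δ / 2) := ⟨_, rfl⟩
  rw [← hw] at hyδ2
  have hxr : (0 : ℝ) < x := by exact_mod_cast (by omega : 0 < x)
  have hl2 : 1 ≤ Nat.log 2 x := Nat.log_pos (by norm_num) (by omega)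
  have hl2r : (1 : ℝ) ≤ (Nat.log 2 x : ℝ) := by exact_mod_cast hl2
  have hlog2 : (Nat.log 2 x : ℝ) ≤ 3 / 2 * L := by
    have e1 : 2 ^ Nat.log 2 x ≤ x := Nat.pow_log_le_self 2 (by omega)
    have e2 : (2 : ℝ) ^ Nat.log 2 x ≤ N := by exact_mod_cast e1.trans hxN
    have e3 := Real.log_le_log (by positivity) e2
    rw [Real.log_pow, ← hLd] at e3
    have e4 := Real.log_two_gt_d9
    have e5 : (Nat.log 2 x : ℝ) * (2 / 3) ≤ (Nat.log 2 x : ℝ) * Real.log 2 := by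
      apply mul_le_mul_of_nonneg_left _ (by linarith)
      linarith
    linarith
  obtain ⟨ρ, hρ⟩ : ∃ ρ : ℝ, ρ = (P.card : ℝ) / (Nat.log 2 x : ℝ) := ⟨_, rfl⟩
  have hρ1 : (y : ℝ) ^ (1 / 2 + δ) ≤ 3 / 2 * ρ := by
    rw [hρ, mul_div_assoc', le_div_iff₀ (by linarith)]
    calc (y : ℝ) ^ (1 / 2 + δ) * (Nat.log 2 x : ℝ) ≤ (y : ℝ) ^ (1 / 2 + δ) * (3 / 2 * L) := by gcongr
      _ = 3 / 2 * ((y : ℝ) ^ (1 / 2 + δ) * L) := by ring
      _ ≤ _ := mul_le_mul_of_nonneg_left hcard (by norm_num)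
  have hyp0 : 0 < (y : ℝ) ^ (1 / 2 + δ) := by positivity
  have hρ0 : 0 < ρ := by linarith
  refine ⟨ρ, w, ⟨fun p hp => (hP p hp).1, fun p hp => (hP p hp).2, ?_, hρ0, hyδ2, ?_, ?_, ?_, by omega⟩, ?_⟩
  · rw [hρ, div_mul_cancel₀ _ (by linarith)]
  · -- y w² ≤ ρ²
    have e1 : (y : ℝ) ^ (1 / 2 + δ) = √(y : ℝ) * (w * w) := by
      rw [Real.rpow_add hy0, ← Real.sqrt_eq_rpow, hw, ← Real.rpow_add hy0]
      congr 2
      ring
    rw [e1] at hρ1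
    have e2 : 0 ≤ √(y : ℝ) * (w * w) := by positivity
    have e3 := pow_le_pow_left₀ e2 hρ1 2
    have e4 : (√(y : ℝ) * (w * w)) ^ 2 = y * w ^ 2 * w ^ 2 := by
      rw [mul_pow, Real.sq_sqrt hy0.le]
      ring
    rw [e4] at e3
    have e5 : 4 ≤ w ^ 2 := by nlinarith
    have e6 : y * w ^ 2 * 4 ≤ y * w ^ 2 * w ^ 2 := mul_le_mul_of_nonneg_left e5 (by positivity)
    have e7 : (0 : ℝ) ≤ y * w ^ 2 := by positivity
    nlinarith
  · rw [hw, ← Real.rpow_mul_natCast hy0.le]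
    have e1 : 1 ≤ δ / 2 * m := by
      rw [div_le_iff₀ hδ] at hm
      linarith
    calc (y : ℝ) = (y : ℝ) ^ (1 : ℝ) := (Real.rpow_one _).symm
      _ ≤ _ := Real.rpow_le_rpow_of_exponent_le hy1r e1
  · have : (4 : ℝ) ≤ y := by nlinarith
    exact_mod_cast this
  · nlinarith

/-- the exponential sum is smaller by a power of `N` except near rational numbers whose denominators are a small power of `N` -/
theorem exp_pow (δ : ℝ) (hδ : 0 < δ) (E : ℕ) (hE : 2 ≤ E) : ∃ θ : ℝ, 0 < θ ∧ θ ≤ 1 / (4 * E) ∧ ∃ N₀ : ℕ, ∀ N, N₀ ≤ N →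
    ∀ (P : Finset ℕ) (y x : ℕ), CondP δ θ N P y x → ∃ Q : ℕ, 1 ≤ Q ∧ Q ^ E ≤ x ∧
      ∀ α : ℝ, ‖∑ n ∈ SS P x, ee ((n : ℝ) * α)‖ ≤ (SS P x).card * (N : ℝ) ^ (-θ) ∨
        ∃ (q : ℕ) (c : ℤ), 1 ≤ q ∧ q ≤ Q ∧ |α - c / q| * x ≤ Q := by
  obtain ⟨m, hm1, N₀, h1⟩ := hyp_of δ hδ
  obtain ⟨A, hA⟩ : ∃ A, A = 4 * m * E := ⟨_, rfl⟩
  obtain ⟨k0, hk0⟩ : ∃ k0, k0 = 28 * m * E + 16 := ⟨_, rfl⟩
  obtain ⟨D, hD⟩ : ∃ D, D = 2 * k0 + 4 * A + 4 * E := ⟨_, rfl⟩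
  have hD0 : (0 : ℝ) < D := by exact_mod_cast (by omega : 0 < D)
  have hmE : 2 ≤ m * E := by
    calc 2 ≤ E := hE
      _ ≤ m * E := Nat.le_mul_of_pos_left _ hm1
  have hA1 : 1 ≤ A := by rw [hA, mul_assoc]; omega
  refine ⟨1 / D, by positivity, ?_, N₀ + 1, fun N hN P y x h => ?_⟩
  · apply one_div_le_one_div_of_le
    · have : (0 : ℝ) < E := by exact_mod_cast (by omega : 0 < E)
      positivity
    · exact_mod_cast (by omega : 4 * E ≤ D)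
  have hNr : (1 : ℝ) ≤ N := by exact_mod_cast (by omega : 1 ≤ N)
  have hN0 : (0 : ℝ) < N := by linarith
  have hDk : 2 * (k0 : ℝ) ≤ D := by exact_mod_cast (by omega : 2 * k0 ≤ D)
  have hk01 : (1 : ℝ) ≤ k0 := by exact_mod_cast (by omega : 1 ≤ k0)
  have hθ2 : (1 : ℝ) / D ≤ 1 / 2 := by
    apply one_div_le_one_div_of_le (by norm_num)
    linarith
  obtain ⟨ρ, w, hyp, -⟩ := h1 N (by omega) (1 / D) hθ2 P y x h
  have hxhalf : (N : ℝ) ^ ((1 : ℝ) / 2) ≤ x := (Real.rpow_le_rpow_of_exponent_le hNr (by linarith)).trans h.Nx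
  have hy4 := hyp.y4
  have hyn : 0 < y := by omega
  have hy2 : 1 < y := by omega
  have hy1r : (1 : ℝ) ≤ y := by exact_mod_cast (by omega : 1 ≤ y)
  have hx1 : 1 ≤ x := by
    have := hyp.n2
    omega
  -- many factors
  have hyk0 : y ^ k0 ≤ x := by
    have e1 : (y : ℝ) ^ k0 ≤ x := by
      calc (y : ℝ) ^ k0 ≤ ((N : ℝ) ^ (1 / (D : ℝ))) ^ k0 := pow_le_pow_left₀ (by linarith) h.top _
        _ = (N : ℝ) ^ (1 / (D : ℝ) * k0) := by rw [← Real.rpow_mul_natCast hN0.le]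
        _ ≤ (N : ℝ) ^ ((1 : ℝ) / 2) := by
            apply Real.rpow_le_rpow_of_exponent_le hNr
            rw [one_div_mul_eq_div, div_le_div_iff₀ hD0 (by norm_num)]
            linarith
        _ ≤ x := hxhalf
    exact_mod_cast e1
  obtain ⟨k, hk⟩ : ∃ k, k = Nat.log y x := ⟨_, rfl⟩
  have hk1 : y ^ k ≤ x := by
    rw [hk]
    exact Nat.pow_log_le_self _ (by omega)
  have hk2 : x < y ^ (k + 1) := by
    have := Nat.lt_pow_succ_log_self hy2 x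
    rw [← hk] at this
    exact this
  have hkk0 : k0 ≤ k := by
    rw [hk]
    exact Nat.le_log_of_pow_le hy2 hyk0
  obtain ⟨V, hV⟩ : ∃ V, V = k / A := ⟨_, rfl⟩
  have hVA : A * V ≤ k := by rw [hV]; exact Nat.mul_div_le k A
  have hVA2 : k < A * (V + 1) := by rw [hV]; exact Nat.lt_mul_div_succ k hA1
  have hV1 : 1 ≤ V := by
    rw [hV]
    apply Nat.div_pos _ (by omega)
    rw [hA, mul_assoc]
    rw [hk0, mul_assoc] at hkk0
    omega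
  obtain ⟨c1, hc1⟩ : ∃ c1, c1 = m * (14 + 2 * V) := ⟨_, rfl⟩
  have hc1E : c1 * E ≤ k := by
    have e1 : c1 * E = 14 * (m * E) + 2 * (m * E * V) := by rw [hc1]; ring
    have e2 : 4 * (m * E * V) ≤ k := by
      calc 4 * (m * E * V) = A * V := by rw [hA]; ring
        _ ≤ k := hVA
    have e3 : 28 * (m * E) + 16 ≤ k := by
      have : 28 * (m * E) + 16 = k0 := by rw [hk0]; ring
      omega
    omega
  have hc1k : c1 + 8 ≤ k := by
    have e1 : 2 * c1 ≤ c1 * E := by rw [mul_comm 2 c1]; exact Nat.mul_le_mul_left _ hE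
    omega
  refine ⟨y ^ c1, Nat.pow_pos hyn, ?_, fun α => ?_⟩
  · rw [← pow_mul]
    exact (Nat.pow_le_pow_right hyn hc1E).trans hk1
  rcases exp_alt hyp k V hk1 hk2 (by rw [← hc1]; exact hc1k) α with h2 | ⟨q, c, hq1, hq2, hq3⟩
  · left
    refine h2.trans ?_
    rw [div_eq_mul_inv]
    apply mul_le_mul_of_nonneg_left _ (Nat.cast_nonneg _)
    rw [Real.rpow_neg hN0.le]
    apply inv_anti₀ (by positivity)
    -- the saving
    have e1 : (N : ℝ) ≤ ((y : ℝ) ^ V) ^ (4 * A) := by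
      have e2 : (x : ℝ) ≤ ((y : ℝ) ^ V) ^ (2 * A) := by
        have e3 : x ≤ (y ^ V) ^ (2 * A) := by
          rw [← pow_mul]
          refine hk2.le.trans (Nat.pow_le_pow_right hyn ?_)
          have e4 : V * (2 * A) = A * V + A * V := by ring
          have e5 : A ≤ A * V := Nat.le_mul_of_pos_right _ hV1
          have e6 : A * (V + 1) = A * V + A := by ring
          omega
        exact_mod_cast e3
      have e3 : (N : ℝ) = ((N : ℝ) ^ ((1 : ℝ) / 2)) ^ 2 := by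
        rw [← Real.rpow_mul_natCast hN0.le]
        norm_num
      rw [e3]
      calc ((N : ℝ) ^ ((1 : ℝ) / 2)) ^ 2 ≤ (((y : ℝ) ^ V) ^ (2 * A)) ^ 2 := pow_le_pow_left₀ (by positivity) (hxhalf.trans e2) 2
        _ = _ := by rw [← pow_mul]; congr 1; ring
    have e2 : (N : ℝ) ^ (1 / (D : ℝ)) ≤ (((y : ℝ) ^ V) ^ (4 * A)) ^ (1 / (D : ℝ)) := Real.rpow_le_rpow hN0.le e1 (by positivity)
    refine e2.trans ?_
    have e3 : (1 : ℝ) ≤ (y : ℝ) ^ V := one_le_pow₀ hy1r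
    rw [← Real.rpow_natCast ((y : ℝ) ^ V) (4 * A), ← Real.rpow_mul (by positivity)]
    calc ((y : ℝ) ^ V) ^ (((4 * A : ℕ) : ℝ) * (1 / (D : ℝ))) ≤ ((y : ℝ) ^ V) ^ (1 : ℝ) := by
          apply Real.rpow_le_rpow_of_exponent_le e3
          rw [mul_one_div, div_le_one hD0]
          exact_mod_cast (by omega : 4 * A ≤ D)
      _ = _ := Real.rpow_one _
  · right
    rw [← hc1] at hq2 hq3
    refine ⟨q, c, hq1, hq2, ?_⟩
    push_cast
    exact hq3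

end Pool.Agent.N469.PW
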