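import Pool.Agent.N469.PW.Few

set_option autoImplicit false

/-! Divisor correlations: all shifts near almost all integers composed of primes from `P`. -/

namespace Pool.Agent.N469.PW
open Finset Polynomial
open Pool.Agent.N469.SM (SS mem_SS one_mem_SS SS_mono card_SS_le card_SS_pos)
open Pool.Agent.Results.MP_122e00_nt.SparseRandomShifts (FewLarge φ Asymp)

open Classical in
theorem div_core (r : ℕ) (P : ℕ → ℝ[X]) (T : ℤ → ℝ[X]) (θc : ℝ) (hθc : 0 < θc) (C : ℕ)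
    (hcrit : ∀ (B : ℕ) (η : ℝ), 0 < η → η ≤ 1 → ∃ N₀ : ℕ, ∀ N : ℕ, N₀ ≤ N →
      ∀ (ι : Type) [Fintype ι] (w : ι → ℝ) (v : ι → ℤ), (∀ i, 0 ≤ w i) → ∑ i, w i = 1 → (∀ i, |v i| ≤ B * N) →
      ∀ ρ : ℝ, (N : ℝ) ^ (-θc) ≤ ρ → ρ ≤ 1 → FewLarge w v N ρ ((N : ℝ) ^ θc) →
      ∑ i ∈ univ.filter (fun i : ι => v i ≠ 0 ∧ ¬ Asymp r N P T (ρ ^ (1 / 8 : ℝ) * N * Real.log N ^ C) η (v i)), w i ≤
        ρ ^ (1 / 2 : ℝ) * Real.log N ^ C) (δ : ℝ) (hδ : 0 < δ) :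
    ∃ θ₀ : ℝ, 0 < θ₀ ∧ θ₀ ≤ 1 / 8 ∧ ∀ θ : ℝ, 0 < θ → θ ≤ θ₀ → ∀ (μ : ℤ), μ ≠ 0 → ∀ (B : ℕ) (η : ℝ), 0 < η → η ≤ 1 → ∃ N₀ : ℕ, ∀ N, N₀ ≤ N →
      ∀ (R : Finset ℕ) (y x : ℕ), CondP δ θ N R y x → ∀ c : ℤ, |c| ≤ B * N → ∀ E : ℕ → Prop, ∀ _ : DecidablePred E,
        (∀ v : ℕ, E v → ∃ h : ℤ, |((h - (c + μ * v) : ℤ) : ℝ)| ≤ (N : ℝ) ^ θ ∧ h ≠ 0 ∧ ¬ Asymp r N P T ((N : ℝ) ^ (1 - θ)) η h) →
        (((SS R x).filter E).card : ℝ) ≤ ((SS R x).card : ℝ) * (N : ℝ) ^ (-θ) := by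
  obtain ⟨θ1, hθ1, hθ18, hf1⟩ := few_smooth δ hδ θc hθc
  obtain ⟨θ₃, hθ₃⟩ : ∃ θ₃, θ₃ = min θc θ1 := ⟨_, rfl⟩
  have hθ₃0 : 0 < θ₃ := by rw [hθ₃]; exact lt_min hθc hθ1
  have hθ₃c : θ₃ ≤ θc := by rw [hθ₃]; exact min_le_left _ _
  have hθ₃1 : θ₃ ≤ θ1 := by rw [hθ₃]; exact min_le_right _ _
  refine ⟨θ₃ / 64, by positivity, by linarith, fun θ hθ hθ₀ μ hμ B η hη hη1 => ?_⟩
  obtain ⟨N1, h1⟩ := hf1 μ hμ
  obtain ⟨N2, h2⟩ := Pool.Agent.R501.SP.crit_pow r P T θc C hcrit θ₃ hθ₃0 hθ₃c (B + 1 + μ.natAbs) η hη hη1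
  obtain ⟨N3, h3⟩ : ∃ N3 : ℕ, ∀ N : ℕ, N3 ≤ N → (3 : ℝ) ≤ (N : ℝ) ^ (θ₃ / 64) := by
    have t1 := (tendsto_rpow_atTop (show 0 < θ₃ / 64 by positivity)).comp (tendsto_natCast_atTop_atTop (R := ℝ))
    obtain ⟨N3, h⟩ := Filter.eventually_atTop.1 (t1.eventually_ge_atTop 3)
    exact ⟨N3, fun N hN => h N hN⟩
  refine ⟨N1 + N2 + N3 + 2, fun N hN R y x hc c hcB E _ hE => ?_⟩
  have hNr : (1 : ℝ) ≤ N := by exact_mod_cast (by omega : 1 ≤ N)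
  have hN0 : (0 : ℝ) < N := by linarith
  have h3N := h3 N (by omega)
  have hc1 : CondP δ θ1 N R y x := hc.mono (by omega) (by linarith)
  have hx0 : (0 : ℝ) < x := lt_of_lt_of_le (by positivity) hc.Nx
  have hx1 : 1 ≤ x := by exact_mod_cast hx0
  have hScard : (0 : ℝ) < ((SS R x).card : ℝ) := by exact_mod_cast card_SS_pos R hx1
  obtain ⟨W, hW⟩ : ∃ W : ℕ, W = ⌊(N : ℝ) ^ θ⌋₊ := ⟨_, rfl⟩
  have hWr : (W : ℝ) ≤ (N : ℝ) ^ θ := by rw [hW]; exact Nat.floor_le (by positivity)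
  have hNθ : (1 : ℝ) ≤ (N : ℝ) ^ θ := Real.one_le_rpow hNr hθ.le
  have hWN : (W : ℝ) ≤ N := by
    refine hWr.trans ?_
    calc (N : ℝ) ^ θ ≤ (N : ℝ) ^ (1 : ℝ) := Real.rpow_le_rpow_of_exponent_le hNr (by linarith)
      _ = N := Real.rpow_one _
  have hWNn : (W : ℤ) ≤ N := by exact_mod_cast hWN
  -- one shift
  have hone : ∀ t ∈ Icc (-(W : ℤ)) W, (((SS R x).filter (fun v : ℕ => c + t + μ * v ≠ 0 ∧
      ¬ Asymp r N P T ((N : ℝ) ^ (1 - θ₃ / 16)) η (c + t + μ * v))).card : ℝ) ≤ ((SS R x).card : ℝ) * (N : ℝ) ^ (-(θ₃ / 16)) := by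
    intro t ht
    rw [mem_Icc] at ht
    have hfew := Pool.Agent.R501.SP.few_mono _ _ N _ _ _ (Real.rpow_le_rpow_of_exponent_le hNr (by linarith : -θ1 ≤ -θ₃))
      (h1 N (by omega) R y x hc1 (c + t))
    have key := h2 N (by omega) {v // v ∈ SS R x} (fun _ => 1 / ((SS R x).card : ℝ)) (fun v => c + t + μ * (v.1 : ℕ))
      (fun v => by positivity)
      (by
        rw [Finset.sum_coe_sort (SS R x) (fun _ => 1 / ((SS R x).card : ℝ)), sum_const, nsmul_eq_mul, mul_one_div, div_self hScard.ne'])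
      (by
        intro v
        have h6 : ((v.1 : ℕ) : ℤ) ≤ N := by exact_mod_cast (mem_SS.1 v.2).1.2.trans hc.xN
        have h7 : |c + t| ≤ (B + 1) * N := by
          have a1 := abs_add_le c t
          have a2 : |t| ≤ N := by rw [abs_le]; omega
          calc |c + t| ≤ |c| + |t| := a1
            _ ≤ B * N + N := add_le_add hcB a2
            _ = _ := by ring
        calc |c + t + μ * (v.1 : ℕ)| ≤ |c + t| + |μ * (v.1 : ℕ)| := abs_add_le _ _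
          _ = |c + t| + |μ| * (v.1 : ℕ) := by rw [abs_mul, abs_of_nonneg (Int.natCast_nonneg _)]
          _ ≤ (B + 1) * N + |μ| * N := add_le_add h7 (mul_le_mul_of_nonneg_left h6 (abs_nonneg _))
          _ = _ := by push_cast; ring) hfew
    rw [sum_filter, Finset.sum_coe_sort (SS R x) (fun v : ℕ => if c + t + μ * (v : ℕ) ≠ 0 ∧
      ¬ Asymp r N P T ((N : ℝ) ^ (1 - θ₃ / 16)) η (c + t + μ * (v : ℕ)) then 1 / ((SS R x).card : ℝ) else 0)] at key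
    rw [← sum_filter, sum_const, nsmul_eq_mul, mul_one_div, div_le_iff₀ hScard] at key
    rw [mul_comm]
    exact key
  -- the union
  have hsub : (SS R x).filter E ⊆ (Icc (-(W : ℤ)) W).biUnion (fun t => (SS R x).filter (fun v : ℕ => c + t + μ * v ≠ 0 ∧
      ¬ Asymp r N P T ((N : ℝ) ^ (1 - θ₃ / 16)) η (c + t + μ * v))) := by
    intro v hv
    rw [mem_filter] at hv
    obtain ⟨h, hh1, hh2, hh3⟩ := hE v hv.2
    rw [mem_biUnion]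
    refine ⟨h - (c + μ * v), ?_, ?_⟩
    · rw [mem_Icc, ← abs_le]
      have e1 : (((h - (c + μ * v)).natAbs : ℕ) : ℝ) ≤ (N : ℝ) ^ θ := by
        rw [Nat.cast_natAbs]
        push_cast
        push_cast at hh1
        exact hh1
      have e2 : (h - (c + μ * v)).natAbs ≤ W := by rw [hW]; exact Nat.le_floor e1
      rw [Int.abs_eq_natAbs]
      exact_mod_cast e2
    · rw [mem_filter]
      have e1 : c + (h - (c + μ * v)) + μ * v = h := by ring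
      rw [e1]
      refine ⟨hv.1, hh2, fun hg => hh3 fun X hX => ?_⟩
      obtain ⟨q1, q2⟩ := hg X hX
      have e2 : (N : ℝ) ^ (1 - θ₃ / 16) ≤ (N : ℝ) ^ (1 - θ) := Real.rpow_le_rpow_of_exponent_le hNr (by linarith)
      exact ⟨q1.trans e2, fun hh => (q2 hh).trans (by linarith)⟩
  have hcard : (((SS R x).filter E).card : ℝ) ≤ ∑ t ∈ Icc (-(W : ℤ)) W, (((SS R x).filter (fun v : ℕ => c + t + μ * v ≠ 0 ∧
      ¬ Asymp r N P T ((N : ℝ) ^ (1 - θ₃ / 16)) η (c + t + μ * v))).card : ℝ) := by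
    exact_mod_cast (card_le_card hsub).trans card_biUnion_le
  refine hcard.trans ((sum_le_card_nsmul _ _ _ hone).trans ?_)
  rw [Int.card_Icc, nsmul_eq_mul]
  have e1 : (((W : ℤ) + 1 - -(W : ℤ)).toNat : ℝ) ≤ 3 * (N : ℝ) ^ θ := by
    have : ((W : ℤ) + 1 - -(W : ℤ)).toNat = 2 * W + 1 := by omega
    rw [this]
    push_cast
    linarith
  calc (((W : ℤ) + 1 - -(W : ℤ)).toNat : ℝ) * (((SS R x).card : ℝ) * (N : ℝ) ^ (-(θ₃ / 16))) ≤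
      ((N : ℝ) ^ (θ₃ / 64) * (N : ℝ) ^ θ) * (((SS R x).card : ℝ) * (N : ℝ) ^ (-(θ₃ / 16))) := by
        apply mul_le_mul_of_nonneg_right _ (by positivity)
        exact e1.trans (mul_le_mul_of_nonneg_right h3N (by positivity))
    _ = ((SS R x).card : ℝ) * (N : ℝ) ^ (θ₃ / 64 + θ + -(θ₃ / 16)) := by
        rw [Real.rpow_add hN0, Real.rpow_add hN0]
        ring
    _ ≤ _ := by
        apply mul_le_mul_of_nonneg_left _ hScard.le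
        exact Real.rpow_le_rpow_of_exponent_le hNr (by linarith)

end Pool.Agent.N469.PW
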