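import Pool.Agent.N469.PW.Base
import Pool.Agent.R501.SP3

set_option autoImplicit false

/-! Integers composed of primes from `P`: few large Fourier coefficients, with a power saving. -/

namespace Pool.Agent.N469.PW
open Finset
open Pool.Agent.H807R2.Dav
open Pool.Agent.H373R2.T7
open Pool.Agent.N469.SM (SS mem_SS one_mem_SS SS_mono card_SS_le card_SS_pos)
open Pool.Agent.N469.SQ (Hyp exp_alt maj mem_maj maj_card)
open Pool.Agent.Results.MP_122e00_nt.SparseRandomShifts (FewLarge φ)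

/-- separated points near rational numbers with small denominators are few -/
lemma count_sep (κ N x Q : ℕ) (hκ : 1 ≤ κ) (hN : 1 ≤ N) (hxN : x ≤ N) (hQ : 1 ≤ Q) (hQx : Q + κ ≤ x) (S : Finset ℝ)
    (hS : ∀ a ∈ S, 0 ≤ a ∧ a < 1 ∧ ∃ (q : ℕ) (c : ℤ), 1 ≤ q ∧ q ≤ Q ∧ |(κ : ℝ) * a - c / q| * x ≤ Q)
    (hsep : ∀ a ∈ S, ∀ b ∈ S, a ≠ b → 1 / (N : ℝ) ≤ |a - b|) :
    (S.card : ℝ) ≤ ((Q + κ : ℕ) : ℝ) * ((κ + 2) * ((Q + κ : ℕ) : ℝ) + 1) * (2 * ((Q + κ : ℕ) : ℝ) * N / x + 1) := by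
  have hN0 : (0 : ℝ) < N := by exact_mod_cast hN
  have hxr : (x : ℝ) ≤ N := by exact_mod_cast hxN
  have hκ0 : (0 : ℝ) ≤ κ := Nat.cast_nonneg _
  refine le_trans ?_ (maj_card κ N x (Q + κ) hκ hN (by omega) hQx)
  have h1 : S.card ≤ (maj κ N x (Q + κ)).card := by
    apply card_le_card_of_injOn (fun a : ℝ => ⌊a * (N : ℝ)⌋₊)
    · intro a ha
      obtain ⟨h0, h2, q, c, hq1, hq2, h3⟩ := hS a ha
      simp only
      rw [mem_coe, mem_maj, mem_range]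
      have e1 : (0 : ℝ) ≤ a * N := by positivity
      have e2 := Nat.floor_le e1
      have e3 := Nat.lt_floor_add_one (a * N)
      refine ⟨?_, q, c, hq1, by omega, ?_⟩
      · rw [Nat.floor_lt e1]
        nlinarith
      · have e4 : |(κ : ℝ) * (((⌊a * N⌋₊ : ℕ) : ℝ) / N) - c / q| ≤ |(κ : ℝ) * a - c / q| + κ / N := by
          have e5 : (κ : ℝ) * (((⌊a * N⌋₊ : ℕ) : ℝ) / N) - c / q = ((κ : ℝ) * a - c / q) + (κ : ℝ) * (((⌊a * N⌋₊ : ℕ) : ℝ) / N - a) := by ring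
          rw [e5]
          refine (abs_add_le _ _).trans ?_
          have e6 : |((⌊a * N⌋₊ : ℕ) : ℝ) / N - a| ≤ 1 / N := by
            rw [abs_sub_comm, abs_of_nonneg]
            · rw [sub_le_iff_le_add, ← add_div, le_div_iff₀ hN0]
              linarith
            · rw [sub_nonneg, div_le_iff₀ hN0]
              exact e2
          have e7 : |(κ : ℝ) * (((⌊a * N⌋₊ : ℕ) : ℝ) / N - a)| ≤ κ / N := by
            rw [abs_mul, abs_of_nonneg hκ0]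
            calc (κ : ℝ) * |((⌊a * N⌋₊ : ℕ) : ℝ) / N - a| ≤ κ * (1 / N) := mul_le_mul_of_nonneg_left e6 hκ0
              _ = κ / N := by ring
          linarith
        calc |(κ : ℝ) * (((⌊a * N⌋₊ : ℕ) : ℝ) / N) - c / q| * x ≤ (|(κ : ℝ) * a - c / q| + κ / N) * x :=
              mul_le_mul_of_nonneg_right e4 (Nat.cast_nonneg _)
          _ = |(κ : ℝ) * a - c / q| * x + κ * (x / N) := by ring
          _ ≤ Q + κ * 1 := by
              apply add_le_add h3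
              apply mul_le_mul_of_nonneg_left _ hκ0
              rw [div_le_one hN0]
              exact hxr
          _ = _ := by push_cast; ring
    · intro a ha b hb hab
      simp only at hab
      by_contra hne
      have h2 := hsep a ha b hb hne
      have e1 : (0 : ℝ) ≤ a * N := mul_nonneg (hS a ha).1 hN0.le
      have e2 : (0 : ℝ) ≤ b * N := mul_nonneg (hS b hb).1 hN0.le
      have a1 := Nat.floor_le e1
      have a2 := Nat.lt_floor_add_one (a * N)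
      have b1 := Nat.floor_le e2
      have b2 := Nat.lt_floor_add_one (b * N)
      rw [hab] at a1 a2
      have h3 : |a * N - b * N| < 1 := by
        rw [abs_lt]
        constructor <;> linarith
      rw [← sub_mul, abs_mul, abs_of_pos hN0] at h3
      rw [div_le_iff₀ hN0] at h2
      linarith
  exact_mod_cast h1

/-- the number of the large Fourier coefficients -/
theorem few_smooth (δ : ℝ) (hδ : 0 < δ) (θc : ℝ) (hθc : 0 < θc) : ∃ θ : ℝ, 0 < θ ∧ θ ≤ 1 / 8 ∧ ∀ (μ : ℤ), μ ≠ 0 →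
    ∃ N₀ : ℕ, ∀ N, N₀ ≤ N → ∀ (P : Finset ℕ) (y x : ℕ), CondP δ θ N P y x → ∀ cc : ℤ,
      FewLarge (fun _ : {v // v ∈ SS P x} => 1 / ((SS P x).card : ℝ)) (fun v => cc + μ * (v.1 : ℕ)) N ((N : ℝ) ^ (-θ)) ((N : ℝ) ^ θc) := by
  classical
  obtain ⟨E, hE⟩ := exists_nat_ge (8 / θc + 4)
  have hE4 : (4 : ℝ) ≤ E := by
    have : 0 < 8 / θc := by positivity
    linarith
  have hE4n : 4 ≤ E := by exact_mod_cast hE4
  have hE0 : (0 : ℝ) < E := by linarith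
  have hEθ : 1 / (E : ℝ) ≤ θc / 8 := by
    rw [div_le_div_iff₀ hE0 (by norm_num)]
    have h1 : 8 / θc ≤ E := by linarith
    rw [div_le_iff₀ hθc] at h1
    linarith
  obtain ⟨θ, hθ0, hθE, N₀, h1⟩ := exp_pow δ hδ E (by omega)
  have hθE1 : θ ≤ 1 / E := by
    refine hθE.trans (one_div_le_one_div_of_le hE0 (by linarith))
  have hθ8 : θ ≤ 1 / 8 := by
    refine hθE.trans (one_div_le_one_div_of_le (by norm_num) (by linarith))
  refine ⟨θ, hθ0, hθ8, fun μ hμ => ?_⟩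
  obtain ⟨κ, hκ⟩ : ∃ κ, κ = μ.natAbs := ⟨_, rfl⟩
  have hκ1 : 1 ≤ κ := by omega
  have hκr : (1 : ℝ) ≤ κ := by exact_mod_cast hκ1
  -- the constant is absorbed by a power
  obtain ⟨N1, hN1⟩ : ∃ N1 : ℕ, ∀ N : ℕ, N1 ≤ N → ((κ : ℝ) + 1) * (((κ + 3) * (κ + 1)) * (2 * κ + 3)) ≤ (N : ℝ) ^ (θc / 2) ∧
      (κ : ℝ) + 1 ≤ (N : ℝ) ^ ((1 : ℝ) / 8) := by
    have t1 := (tendsto_rpow_atTop (show 0 < θc / 2 by positivity)).comp (tendsto_natCast_atTop_atTop (R := ℝ))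
    have t2 := (tendsto_rpow_atTop (show (0 : ℝ) < 1 / 8 by norm_num)).comp (tendsto_natCast_atTop_atTop (R := ℝ))
    have t3 := (t1.eventually_ge_atTop (((κ : ℝ) + 1) * (((κ + 3) * (κ + 1)) * (2 * κ + 3)))).and (t2.eventually_ge_atTop ((κ : ℝ) + 1))
    obtain ⟨N1, h⟩ := Filter.eventually_atTop.1 t3
    exact ⟨N1, fun N hN => h N hN⟩
  refine ⟨N₀ + N1 + 2, fun N hN P y x hc cc S hS hsep => ?_⟩
  obtain ⟨Q, hQ1, hQE, hexp⟩ := h1 N (by omega) P y x hc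
  obtain ⟨g1, g2⟩ := hN1 N (by omega)
  have hNr : (1 : ℝ) ≤ N := by exact_mod_cast (by omega : 1 ≤ N)
  have hN0 : (0 : ℝ) < N := by linarith
  have hQr : (1 : ℝ) ≤ Q := by exact_mod_cast hQ1
  have hxhalf : (N : ℝ) ^ ((1 : ℝ) / 2) ≤ x := (Real.rpow_le_rpow_of_exponent_le hNr (by linarith)).trans hc.Nx
  have hx0 : (0 : ℝ) < x := lt_of_lt_of_le (by positivity) hxhalf
  have hx1 : 1 ≤ x := by exact_mod_cast hx0
  have hQN : (Q : ℝ) ≤ (N : ℝ) ^ (1 / (E : ℝ)) := by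
    have e1 : (Q : ℝ) ^ E ≤ N := by exact_mod_cast hQE.trans hc.xN
    calc (Q : ℝ) = ((Q : ℝ) ^ E) ^ (1 / (E : ℝ)) := by
          rw [← Real.rpow_natCast, ← Real.rpow_mul (by linarith), mul_one_div, div_self hE0.ne', Real.rpow_one]
      _ ≤ _ := Real.rpow_le_rpow (by positivity) e1 (by positivity)
  have hQκ : (Q : ℝ) + κ ≤ (κ + 1) * Q := by nlinarith
  have hQx : Q + κ ≤ x := by
    have e1 : ((Q + κ : ℕ) : ℝ) ≤ x := by
      push_cast
      calc (Q : ℝ) + κ ≤ (κ + 1) * Q := hQκ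
        _ ≤ (N : ℝ) ^ ((1 : ℝ) / 8) * (N : ℝ) ^ (1 / (E : ℝ)) := by gcongr
        _ = (N : ℝ) ^ ((1 : ℝ) / 8 + 1 / (E : ℝ)) := by rw [Real.rpow_add hN0]
        _ ≤ (N : ℝ) ^ ((1 : ℝ) / 2) := by
            apply Real.rpow_le_rpow_of_exponent_le hNr
            have : 1 / (E : ℝ) ≤ 1 / 4 := one_div_le_one_div_of_le (by norm_num) hE4
            linarith
        _ ≤ x := hxhalf
    exact_mod_cast e1
  have hScard : (0 : ℝ) < ((SS P x).card : ℝ) := by exact_mod_cast card_SS_pos P hx1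
  have hnear : ∀ a ∈ S, 0 ≤ a ∧ a < 1 ∧ ∃ (q : ℕ) (c : ℤ), 1 ≤ q ∧ q ≤ Q ∧ |(κ : ℝ) * a - c / q| * x ≤ Q := by
    intro a ha
    obtain ⟨p1, p2, p3⟩ := hS a ha
    refine ⟨p1, p2, ?_⟩
    have h0 : ‖φ (fun _ : {v // v ∈ SS P x} => 1 / ((SS P x).card : ℝ)) (fun v => cc + μ * (v.1 : ℕ)) a‖ =
        1 / ((SS P x).card : ℝ) * ‖∑ v ∈ SS P x, ee ((v : ℝ) * ((μ : ℝ) * a))‖ := by
      have e1 : φ (fun _ : {v // v ∈ SS P x} => 1 / ((SS P x).card : ℝ)) (fun v => cc + μ * (v.1 : ℕ)) a =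
          ∑ v ∈ SS P x, ((1 / ((SS P x).card : ℝ) : ℝ) : ℂ) * ee (((cc + μ * v : ℤ) : ℝ) * a) := by
        rw [← Finset.sum_coe_sort (SS P x) (fun v : ℕ => ((1 / ((SS P x).card : ℝ) : ℝ) : ℂ) * ee (((cc + μ * v : ℤ) : ℝ) * a))]
        rfl
      have e2 : ∑ v ∈ SS P x, ((1 / ((SS P x).card : ℝ) : ℝ) : ℂ) * ee (((cc + μ * v : ℤ) : ℝ) * a) =
          ((1 / ((SS P x).card : ℝ) : ℝ) : ℂ) * ee ((cc : ℝ) * a) * ∑ v ∈ SS P x, ee ((v : ℝ) * ((μ : ℝ) * a)) := by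
        rw [mul_sum]
        apply sum_congr rfl
        intro v _
        have : (((cc + μ * v : ℤ) : ℝ) * a) = (cc : ℝ) * a + v * ((μ : ℝ) * a) := by
          push_cast
          ring
        rw [this, ee_add]
        ring
      rw [e1, e2, norm_mul, norm_mul, norm_ee, mul_one, Complex.norm_real, Real.norm_of_nonneg (by positivity)]
    rw [h0] at p3
    rcases hexp ((μ : ℝ) * a) with h2 | ⟨q, c, hq1, hq2, hq3⟩
    · exfalso
      have h3 : 1 / ((SS P x).card : ℝ) * ‖∑ v ∈ SS P x, ee ((v : ℝ) * ((μ : ℝ) * a))‖ ≤ (N : ℝ) ^ (-θ) := by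
        calc 1 / ((SS P x).card : ℝ) * ‖∑ v ∈ SS P x, ee ((v : ℝ) * ((μ : ℝ) * a))‖ ≤
            1 / ((SS P x).card : ℝ) * ((SS P x).card * (N : ℝ) ^ (-θ)) := mul_le_mul_of_nonneg_left h2 (by positivity)
          _ = _ := by field_simp
      linarith
    · rcases Int.natAbs_eq μ with h3 | h3
      · refine ⟨q, c, hq1, hq2, ?_⟩
        have e1 : (μ : ℝ) = κ := by
          rw [h3, hκ]
          simp
        rw [e1] at hq3
        exact hq3
      · refine ⟨q, -c, hq1, hq2, ?_⟩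
        have e1 : (μ : ℝ) = -κ := by
          rw [h3, hκ]
          simp
        have e2 : |(κ : ℝ) * a - ((-c : ℤ) : ℝ) / q| = |(μ : ℝ) * a - c / q| := by
          rw [e1, ← abs_neg]
          congr 1
          push_cast
          ring
        rw [e2]
        exact hq3
  refine (count_sep κ N x Q hκ1 (by omega) hc.xN hQ1 hQx S hnear hsep).trans ?_
  have hNx : (N : ℝ) / x ≤ (N : ℝ) ^ θ := by
    rw [div_le_iff₀ hx0]
    calc (N : ℝ) = (N : ℝ) ^ θ * (N : ℝ) ^ (1 - θ) := by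
          rw [← Real.rpow_add hN0, show θ + (1 - θ) = 1 by ring, Real.rpow_one]
      _ ≤ (N : ℝ) ^ θ * x := mul_le_mul_of_nonneg_left hc.Nx (by positivity)
  have hNθ : (1 : ℝ) ≤ (N : ℝ) ^ θ := Real.one_le_rpow hNr hθ0.le
  push_cast
  have f1 : ((κ : ℝ) + 2) * (Q + κ) + 1 ≤ ((κ + 3) * (κ + 1)) * Q := by nlinarith
  have f2 : 2 * ((Q : ℝ) + κ) * N / x + 1 ≤ (2 * κ + 3) * (Q * (N : ℝ) ^ θ) := by
    have e1 : 2 * ((Q : ℝ) + κ) * N / x = 2 * ((Q : ℝ) + κ) * (N / x) := by ring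
    have e2 : 2 * ((Q : ℝ) + κ) * (N / x) ≤ 2 * ((κ + 1) * Q) * (N : ℝ) ^ θ := by gcongr
    have e3 : (1 : ℝ) ≤ Q * (N : ℝ) ^ θ := by nlinarith
    rw [e1]
    linarith
  calc ((Q : ℝ) + κ) * ((κ + 2) * (Q + κ) + 1) * (2 * (Q + κ) * N / x + 1) ≤
      ((κ + 1) * Q) * (((κ + 3) * (κ + 1)) * Q) * ((2 * κ + 3) * (Q * (N : ℝ) ^ θ)) := by gcongr
    _ = (((κ : ℝ) + 1) * (((κ + 3) * (κ + 1)) * (2 * κ + 3))) * ((Q : ℝ) ^ 3 * (N : ℝ) ^ θ) := by ring
    _ ≤ (N : ℝ) ^ (θc / 2) * (((N : ℝ) ^ (1 / (E : ℝ))) ^ 3 * (N : ℝ) ^ (1 / (E : ℝ))) := by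
        apply mul_le_mul g1 _ (by positivity) (by positivity)
        apply mul_le_mul (pow_le_pow_left₀ (by linarith) hQN 3) (Real.rpow_le_rpow_of_exponent_le hNr hθE1) (by positivity) (by positivity)
    _ = (N : ℝ) ^ (θc / 2 + 4 * (1 / (E : ℝ))) := by
        rw [← pow_succ, ← Real.rpow_mul_natCast hN0.le, ← Real.rpow_add hN0]
        congr 1
        push_cast
        ring
    _ ≤ (N : ℝ) ^ θc := by
        apply Real.rpow_le_rpow_of_exponent_le hNr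
        linarith

end Pool.Agent.N469.PW
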